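import Mathlib

/-!
# No complete Bernstein function interpolates `(p ^ n + N) / (p ^ n + D)`

If `p > 1` and `-1 < N < D ≤ 0` then no complete Bernstein function takes the value
`a_n = (p ^ n + N) / (p ^ n + D)` at `n` for infinitely many positive integers `n`.

Proof. Let `F` be complete Bernstein with Lévy density `m`, with `F n = a_n` for infinitely many `n`.
The density is nonincreasing and not zero, so `m ≥ c > 0` on some interval `(0, t₀)`. If `n' ≥ 2 n`
are two of these integers then
`1 - a_n ≥ F n' - F n ≥ ∫ (e^(-n t) - e^(-2 n t)) m(t) dt ≥ c' / n`, while `1 - a_n` decays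
exponentially.
-/

set_option autoImplicit false

open Filter Topology MeasureTheory Set

namespace Pool.Agent.Results.MP_e444d1_an.NoInterpolant

/-- `m` is completely monotone on `(0, ∞)`. -/
def CompletelyMonotone (m : ℝ → ℝ) : Prop :=
  ContDiffOn ℝ (⊤ : ℕ∞) m (Ioi 0) ∧ ∀ k : ℕ, ∀ t : ℝ, 0 < t → 0 ≤ (-1) ^ k * iteratedDeriv k m t

/-- `F` is a complete Bernstein function: `F x = a + b x + ∫ (1 - e ^ (-x t)) m t dt` for `x > 0`
with `a, b ≥ 0` and a completely monotone density `m` with `∫ min(1, t) m t dt < ∞`. -/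
def IsCompleteBernstein (F : ℝ → ℝ) : Prop :=
  ∃ (a b : ℝ) (m : ℝ → ℝ), 0 ≤ a ∧ 0 ≤ b ∧ CompletelyMonotone m ∧
    IntegrableOn (fun t => min 1 t * m t) (Ioi 0) ∧
    ∀ x : ℝ, 0 < x → F x = a + b * x + ∫ t in Ioi (0 : ℝ), (1 - Real.exp (-(x * t))) * m t

/-- The sequence. -/
noncomputable def seq (p N D : ℝ) (n : ℕ) : ℝ := (p ^ n + N) / (p ^ n + D)

/-- `F` interpolates the sequence: `F n = a_n` for `n ≥ 1` and `F(0+) = a_0`. -/
def Interpolates (F : ℝ → ℝ) (a : ℕ → ℝ) : Prop :=
  (∀ n : ℕ, 1 ≤ n → F n = a n) ∧ Tendsto F (𝓝[>] 0) (𝓝 (a 0))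

lemma nonneg_of_cm {m : ℝ → ℝ} (hm : CompletelyMonotone m) {t : ℝ} (ht : 0 < t) : 0 ≤ m t := by
  have := hm.2 0 t ht
  simpa using this

lemma antitone_of_cm {m : ℝ → ℝ} (hm : CompletelyMonotone m) : AntitoneOn m (Ioi 0) := by
  apply antitoneOn_of_deriv_nonpos (convex_Ioi 0) hm.1.continuousOn
  · rw [interior_Ioi]
    exact hm.1.differentiableOn (by simp)
  · intro t ht
    rw [interior_Ioi] at ht
    have := hm.2 1 t ht
    rw [iteratedDeriv_one] at this
    linarith

/-- integrability of the integrand of the Lévy–Khintchine formula -/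
lemma integrable_kernel {m : ℝ → ℝ} (hm : CompletelyMonotone m)
    (hint : IntegrableOn (fun t => min 1 t * m t) (Ioi 0)) {x : ℝ} (hx : 0 < x) :
    IntegrableOn (fun t => (1 - Real.exp (-(x * t))) * m t) (Ioi 0) := by
  have h1 : IntegrableOn (fun t => max 1 x * (min 1 t * m t)) (Ioi 0) := hint.const_mul _
  refine Integrable.mono' h1 ?_ ?_
  · apply ContinuousOn.aestronglyMeasurable _ measurableSet_Ioi
    exact (by fun_prop : Continuous fun t => (1 - Real.exp (-(x * t)))).continuousOn.mul
      hm.1.continuousOn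
  · refine ae_restrict_of_forall_mem measurableSet_Ioi fun t ht => ?_
    have ht : 0 < t := ht
    have hmt := nonneg_of_cm hm ht
    have h2 : 0 ≤ 1 - Real.exp (-(x * t)) := by
      have : Real.exp (-(x * t)) ≤ 1 := Real.exp_le_one_iff.2 (by nlinarith)
      linarith
    have h3 : 1 - Real.exp (-(x * t)) ≤ x * t := by
      have := Real.add_one_le_exp (-(x * t))
      linarith
    have h4 : 1 - Real.exp (-(x * t)) ≤ 1 := by
      have := Real.exp_pos (-(x * t))
      linarith
    rw [Real.norm_of_nonneg (mul_nonneg h2 hmt), ← mul_assoc]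
    apply mul_le_mul_of_nonneg_right _ hmt
    have h5 : (1 : ℝ) ≤ max 1 x := le_max_left _ _
    have h6 : x ≤ max 1 x := le_max_right _ _
    rcases le_total 1 t with h | h
    · rw [min_eq_left h]; linarith
    · rw [min_eq_right h]; nlinarith

/-- lower bound for the increments of a complete Bernstein function -/
lemma increment {F : ℝ → ℝ} {a b : ℝ} {m : ℝ → ℝ} (hb : 0 ≤ b) (hm : CompletelyMonotone m)
    (hint : IntegrableOn (fun t => min 1 t * m t) (Ioi 0))
    (hF : ∀ x : ℝ, 0 < x → F x = a + b * x + ∫ t in Ioi (0 : ℝ), (1 - Real.exp (-(x * t))) * m t)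
    {t₀ x y : ℝ} (ht₀ : 0 < t₀) (hx : 0 < x) (hxt : 1 / x ≤ t₀) (hxy : 2 * x ≤ y) :
    m t₀ * (Real.exp (-1) * (1 - Real.exp (-(1 / 2)))) * (1 / (2 * x)) ≤ F y - F x := by
  have hy : 0 < y := by linarith
  set c : ℝ := Real.exp (-1) * (1 - Real.exp (-(1 / 2))) with hc
  have hcpos : 0 ≤ c := by
    apply mul_nonneg (Real.exp_pos _).le
    have : Real.exp (-(1 / 2)) ≤ 1 := Real.exp_le_one_iff.2 (by norm_num)
    linarith
  have i1 := integrable_kernel hm hint hx
  have i2 := integrable_kernel hm hint hy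
  have h1 : F y - F x = b * (y - x) +
      ∫ t in Ioi (0 : ℝ), ((1 - Real.exp (-(y * t))) * m t - (1 - Real.exp (-(x * t))) * m t) := by
    rw [integral_sub i2 i1, hF y hy, hF x hx]; ring
  have h2 : 0 ≤ b * (y - x) := mul_nonneg hb (by linarith)
  have hpt : ∀ t : ℝ, 0 < t →
      0 ≤ (1 - Real.exp (-(y * t))) * m t - (1 - Real.exp (-(x * t))) * m t := by
    intro t ht
    have := nonneg_of_cm hm ht
    have h3 : Real.exp (-(y * t)) ≤ Real.exp (-(x * t)) := Real.exp_le_exp.2 (by nlinarith)
    nlinarith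
  have h4 : ∫ t in Ioo (1 / (2 * x)) (1 / x),
      ((1 - Real.exp (-(y * t))) * m t - (1 - Real.exp (-(x * t))) * m t) ≤
      ∫ t in Ioi (0 : ℝ), ((1 - Real.exp (-(y * t))) * m t - (1 - Real.exp (-(x * t))) * m t) := by
    apply setIntegral_mono_set (i2.sub i1)
    · exact ae_restrict_of_forall_mem measurableSet_Ioi fun t ht => hpt t ht
    · apply Eventually.of_forall
      intro t ht
      exact lt_trans (by positivity) ht.1
  have h5 : ∫ t in Ioo (1 / (2 * x)) (1 / x), m t₀ * c ≤ ∫ t in Ioo (1 / (2 * x)) (1 / x),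
      ((1 - Real.exp (-(y * t))) * m t - (1 - Real.exp (-(x * t))) * m t) := by
    apply setIntegral_mono_on
    · exact integrableOn_const (by simp)
    · exact (i2.sub i1).mono_set fun t ht => lt_trans (by positivity) ht.1
    · exact measurableSet_Ioo
    · intro t ht
      have ht0 : 0 < t := lt_trans (by positivity) ht.1
      have hxt1 : 1 / 2 ≤ x * t := by
        have := ht.1
        rw [div_lt_iff₀ (by positivity)] at this
        linarith
      have hxt2 : x * t ≤ 1 := by
        have := ht.2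
        rw [lt_div_iff₀ hx] at this
        linarith
      have hmt : m t₀ ≤ m t := antitone_of_cm hm ht0 ht₀ (by linarith [ht.2])
      have hm0 : 0 ≤ m t₀ := nonneg_of_cm hm ht₀
      have h6 : Real.exp (-(y * t)) ≤ Real.exp (-(x * t)) * Real.exp (-(1 / 2)) := by
        rw [← Real.exp_add]
        apply Real.exp_le_exp.2
        nlinarith
      have h7 : Real.exp (-1) ≤ Real.exp (-(x * t)) := Real.exp_le_exp.2 (by linarith)
      have h8 : c ≤ Real.exp (-(x * t)) - Real.exp (-(y * t)) := by
        have h9 : Real.exp (-(1 / 2)) ≤ 1 := Real.exp_le_one_iff.2 (by norm_num)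
        calc c ≤ Real.exp (-(x * t)) * (1 - Real.exp (-(1 / 2))) :=
              mul_le_mul_of_nonneg_right h7 (by linarith)
          _ ≤ _ := by linarith
      calc m t₀ * c ≤ m t * (Real.exp (-(x * t)) - Real.exp (-(y * t))) :=
            mul_le_mul hmt h8 hcpos (hm0.trans hmt)
        _ = _ := by ring
  rw [setIntegral_const, smul_eq_mul, Real.volume_real_Ioo_of_le] at h5
  · have h10 : 1 / x - 1 / (2 * x) = 1 / (2 * x) := by field_simp; ring
    rw [h10] at h5
    rw [h1]
    linarith
  · apply one_div_le_one_div_of_le hx; linarith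

/-- **Main result.** Let `p > 1` and `-1 < N < D ≤ 0`. A complete Bernstein function `F` satisfies
`F n = (p ^ n + N) / (p ^ n + D)` for at most finitely many positive integers `n`. In particular no
complete Bernstein function interpolates the sequence. -/
theorem result (p N D : ℝ) (hp : 1 < p) (hN : -1 < N) (hND : N < D) (hD : D ≤ 0) :
    (∀ F : ℝ → ℝ, IsCompleteBernstein F → {n : ℕ | 1 ≤ n ∧ F n = seq p N D n}.Finite) ∧
    ¬ ∃ F : ℝ → ℝ, IsCompleteBernstein F ∧ Interpolates F (seq p N D) := by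
  have main : ∀ F : ℝ → ℝ, IsCompleteBernstein F →
      {n : ℕ | 1 ≤ n ∧ F n = seq p N D n}.Finite := by
    rintro F ⟨a, b, m, ha, hb, hm, hint, hF⟩
    by_contra hS
    have hS : {n : ℕ | 1 ≤ n ∧ F n = seq p N D n}.Infinite := hS
    have hpow : ∀ n : ℕ, 1 ≤ p ^ n := fun n => one_le_pow₀ hp.le
    have hseq : ∀ n : ℕ, seq p N D n = 1 - (D - N) / (p ^ n + D) := by
      intro n
      have : p ^ n + D ≠ 0 := by
        have := hpow n
        linarith
      unfold seq
      field_simp
      ring
    have hpos : ∀ n : ℕ, 0 < p ^ n + D := fun n => by linarith [hpow n]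
    -- the density is not zero
    have hex : ∃ t₀ : ℝ, 0 < t₀ ∧ 0 < m t₀ := by
      by_contra hcon
      push Not at hcon
      have hz : ∀ t : ℝ, 0 < t → m t = 0 := fun t ht => le_antisymm (hcon t ht) (nonneg_of_cm hm ht)
      have hFx : ∀ x : ℝ, 0 < x → F x = a + b * x := by
        intro x hx
        rw [hF x hx]
        have : ∫ t in Ioi (0 : ℝ), (1 - Real.exp (-(x * t))) * m t = 0 := by
          rw [setIntegral_congr_fun measurableSet_Ioi (g := fun _ => (0:ℝ))]
          · simp
          · intro t ht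
            show (1 - Real.exp (-(x * t))) * m t = 0
            rw [hz t ht, mul_zero]
        rw [this, add_zero]
      -- b = 0
      have hb0 : b = 0 := by
        by_contra hb0
        have hb1 : 0 < b := lt_of_le_of_ne hb (Ne.symm hb0)
        obtain ⟨K, hK⟩ := exists_nat_gt (1 / b)
        obtain ⟨n, hn, hnK⟩ := hS.exists_gt K
        have h1 := hn.2
        rw [hFx n (by exact_mod_cast hn.1), hseq] at h1
        have h2 : 0 < (D - N) / (p ^ n + D) := div_pos (by linarith) (hpos n)
        have h3 : 1 / b < n := hK.trans (by exact_mod_cast hnK)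
        rw [div_lt_iff₀ hb1] at h3
        nlinarith
      obtain ⟨n, hn, -⟩ := hS.exists_gt 0
      obtain ⟨k, hk, hnk⟩ := hS.exists_gt n
      have h1 := hn.2
      have h2 := hk.2
      rw [hFx n (by exact_mod_cast hn.1), hseq, hb0] at h1
      rw [hFx k (by exact_mod_cast hk.1), hseq, hb0] at h2
      have h3 : (D - N) / (p ^ n + D) = (D - N) / (p ^ k + D) := by linarith
      have h4 : p ^ n < p ^ k := pow_lt_pow_right₀ hp hnk
      have h5 : (D - N) / (p ^ k + D) < (D - N) / (p ^ n + D) :=
        div_lt_div_of_pos_left (by linarith) (hpos n) (by linarith)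
      linarith
    obtain ⟨t₀, ht₀, hmt₀⟩ := hex
    set c : ℝ := m t₀ * (Real.exp (-1) * (1 - Real.exp (-(1 / 2)))) with hc
    have hcpos : 0 < c := by
      apply mul_pos hmt₀ (mul_pos (Real.exp_pos _) _)
      have : Real.exp (-(1 / 2)) < Real.exp 0 := Real.exp_lt_exp.2 (by norm_num)
      rw [Real.exp_zero] at this
      linarith
    -- decay
    have hlim : Tendsto (fun n : ℕ => (n : ℝ) / p ^ n) atTop (𝓝 0) := by
      have := tendsto_pow_const_div_const_pow_of_one_lt 1 hp
      simpa using this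
    have hev : ∀ᶠ n : ℕ in atTop, (n : ℝ) / p ^ n < c / (4 * (D - N)) ∧ 1 / t₀ < n ∧ -2 * D < p ^ n := by
      refine (hlim.eventually (gt_mem_nhds ?_)).and (((tendsto_natCast_atTop_atTop).eventually
        (eventually_gt_atTop (1 / t₀))).and
          ((tendsto_pow_atTop_atTop_of_one_lt hp).eventually (eventually_gt_atTop (-2 * D))))
      have : 0 < D - N := by linarith
      positivity
    obtain ⟨K, hK⟩ := eventually_atTop.1 hev
    obtain ⟨n, hn, hnK⟩ := hS.exists_gt K
    obtain ⟨k, hk, hnk⟩ := hS.exists_gt (2 * n)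
    obtain ⟨e1, e2, e3⟩ := hK n hnK.le
    have hn0 : (0 : ℝ) < n := by exact_mod_cast hn.1
    have h1 := increment hb hm hint hF (t₀ := t₀) (x := n) (y := k) ht₀ hn0
      (by rw [div_lt_iff₀ ht₀] at e2; rw [div_le_iff₀ hn0]; linarith) (by exact_mod_cast hnk.le)
    rw [← hc, hn.2, hk.2, hseq, hseq] at h1
    have h2 : 0 < (D - N) / (p ^ k + D) := div_pos (by linarith) (hpos k)
    have h3 : c * (1 / (2 * n)) < (D - N) / (p ^ n + D) := by linarith
    have h4 : (D - N) / (p ^ n + D) ≤ (D - N) / (p ^ n / 2) := by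
      apply div_le_div_of_nonneg_left (by linarith) (by linarith [hpow n]) (by linarith)
    have h5 : c * (1 / (2 * n)) < (D - N) / (p ^ n / 2) := h3.trans_le h4
    have hpn : 0 < p ^ n := by linarith [hpow n]
    have hDN : 0 < D - N := by linarith
    rw [div_lt_div_iff₀ hpn (by positivity)] at e1
    have h6 : c * (1 / (2 * n)) = c / (2 * n) := by ring
    rw [h6, div_lt_div_iff₀ (by positivity) (by positivity)] at h5
    nlinarith
  refine ⟨main, ?_⟩
  rintro ⟨F, hF, hi, -⟩
  have h1 := main F hF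
  have h2 : {n : ℕ | 1 ≤ n ∧ F n = seq p N D n} = Ici 1 := by
    ext n
    simp only [mem_ofPred_eq, mem_Ici]
    exact ⟨fun h => h.1, fun h => ⟨h, hi n h⟩⟩
  rw [h2] at h1
  exact (Set.Ici_infinite 1) h1

end Pool.Agent.Results.MP_e444d1_an.NoInterpolant
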